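import Pool.Agent.helper21.UB.Spec

set_option autoImplicit false

open Quaternion

namespace Pool.Agent.helper21.UB

theorem HUR_add (x y : ℍ[ℚ]) (hx : x ∈ Hz) (hy : y ∈ Hz) : x + y ∈ Hz := by
  rcases hx with ⟨a, b, c, d, h1, h2, h3, h4⟩ | ⟨a, b, c, d, h1, h2, h3, h4⟩ <;>
  rcases hy with ⟨e, f, g, h, k1, k2, k3, k4⟩ | ⟨e, f, g, h, k1, k2, k3, k4⟩
  · refine Or.inl ⟨a + e, b + f, c + g, d + h, ?_, ?_, ?_, ?_⟩
    · rw [Quaternion.re_add, h1, k1]; push_cast; ring
    · rw [Quaternion.imI_add, h2, k2]; push_cast; ring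
    · rw [Quaternion.imJ_add, h3, k3]; push_cast; ring
    · rw [Quaternion.imK_add, h4, k4]; push_cast; ring
  · refine Or.inr ⟨a + e, b + f, c + g, d + h, ?_, ?_, ?_, ?_⟩
    · rw [Quaternion.re_add, h1, k1]; push_cast; ring
    · rw [Quaternion.imI_add, h2, k2]; push_cast; ring
    · rw [Quaternion.imJ_add, h3, k3]; push_cast; ring
    · rw [Quaternion.imK_add, h4, k4]; push_cast; ring
  · refine Or.inr ⟨a + e, b + f, c + g, d + h, ?_, ?_, ?_, ?_⟩
    · rw [Quaternion.re_add, h1, k1]; push_cast; ring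
    · rw [Quaternion.imI_add, h2, k2]; push_cast; ring
    · rw [Quaternion.imJ_add, h3, k3]; push_cast; ring
    · rw [Quaternion.imK_add, h4, k4]; push_cast; ring
  · refine Or.inl ⟨a + e + 1, b + f + 1, c + g + 1, d + h + 1, ?_, ?_, ?_, ?_⟩
    · rw [Quaternion.re_add, h1, k1]; push_cast; ring
    · rw [Quaternion.imI_add, h2, k2]; push_cast; ring
    · rw [Quaternion.imJ_add, h3, k3]; push_cast; ring
    · rw [Quaternion.imK_add, h4, k4]; push_cast; ring

theorem HUR_neg (x : ℍ[ℚ]) (hx : x ∈ Hz) : -x ∈ Hz := by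
  rcases hx with ⟨a, b, c, d, h1, h2, h3, h4⟩ | ⟨a, b, c, d, h1, h2, h3, h4⟩
  · refine Or.inl ⟨-a, -b, -c, -d, ?_, ?_, ?_, ?_⟩
    · rw [Quaternion.re_neg, h1]; push_cast; ring
    · rw [Quaternion.imI_neg, h2]; push_cast; ring
    · rw [Quaternion.imJ_neg, h3]; push_cast; ring
    · rw [Quaternion.imK_neg, h4]; push_cast; ring
  · refine Or.inr ⟨-a - 1, -b - 1, -c - 1, -d - 1, ?_, ?_, ?_, ?_⟩
    · rw [Quaternion.re_neg, h1]; push_cast; ring
    · rw [Quaternion.imI_neg, h2]; push_cast; ring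
    · rw [Quaternion.imJ_neg, h3]; push_cast; ring
    · rw [Quaternion.imK_neg, h4]; push_cast; ring

theorem HUR_mul (x y : ℍ[ℚ]) (hx : x ∈ Hz) (hy : y ∈ Hz) : x * y ∈ Hz := by
  rcases hx with ⟨a, b, c, d, h1, h2, h3, h4⟩ | ⟨a, b, c, d, h1, h2, h3, h4⟩ <;>
  rcases hy with ⟨e, f, g, h, k1, k2, k3, k4⟩ | ⟨e, f, g, h, k1, k2, k3, k4⟩
  · refine Or.inl ⟨a * e - b * f - c * g - d * h, a * f + b * e + c * h - d * g,
      a * g - b * h + c * e + d * f, a * h + b * g - c * f + d * e, ?_, ?_, ?_, ?_⟩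
    · rw [Quaternion.re_mul, h1, h2, h3, h4, k1, k2, k3, k4]; push_cast; ring
    · rw [Quaternion.imI_mul, h1, h2, h3, h4, k1, k2, k3, k4]; push_cast; ring
    · rw [Quaternion.imJ_mul, h1, h2, h3, h4, k1, k2, k3, k4]; push_cast; ring
    · rw [Quaternion.imK_mul, h1, h2, h3, h4, k1, k2, k3, k4]; push_cast; ring
  · rcases Int.even_or_odd' (a + b + c + d) with ⟨t, ht | ht⟩
    · have ht' : (a : ℚ) + b + c + d = 2 * t := by exact_mod_cast ht
      refine Or.inl ⟨a * e - b * f - c * g - d * h + (a - t), a * f + b * e + c * h - d * g + (t - d),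
        a * g - b * h + c * e + d * f + (t - b), a * h + b * g - c * f + d * e + (t - c), ?_, ?_, ?_, ?_⟩
      · rw [Quaternion.re_mul, h1, h2, h3, h4, k1, k2, k3, k4]; push_cast; linear_combination (-1 / 2 : ℚ) * ht'
      · rw [Quaternion.imI_mul, h1, h2, h3, h4, k1, k2, k3, k4]; push_cast; linear_combination (1 / 2 : ℚ) * ht'
      · rw [Quaternion.imJ_mul, h1, h2, h3, h4, k1, k2, k3, k4]; push_cast; linear_combination (1 / 2 : ℚ) * ht'
      · rw [Quaternion.imK_mul, h1, h2, h3, h4, k1, k2, k3, k4]; push_cast; linear_combination (1 / 2 : ℚ) * ht'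
    · have ht' : (a : ℚ) + b + c + d = 2 * t + 1 := by exact_mod_cast ht
      refine Or.inr ⟨a * e - b * f - c * g - d * h + (a - t - 1), a * f + b * e + c * h - d * g + (t - d),
        a * g - b * h + c * e + d * f + (t - b), a * h + b * g - c * f + d * e + (t - c), ?_, ?_, ?_, ?_⟩
      · rw [Quaternion.re_mul, h1, h2, h3, h4, k1, k2, k3, k4]; push_cast; linear_combination (-1 / 2 : ℚ) * ht'
      · rw [Quaternion.imI_mul, h1, h2, h3, h4, k1, k2, k3, k4]; push_cast; linear_combination (1 / 2 : ℚ) * ht'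
      · rw [Quaternion.imJ_mul, h1, h2, h3, h4, k1, k2, k3, k4]; push_cast; linear_combination (1 / 2 : ℚ) * ht'
      · rw [Quaternion.imK_mul, h1, h2, h3, h4, k1, k2, k3, k4]; push_cast; linear_combination (1 / 2 : ℚ) * ht'
  · rcases Int.even_or_odd' (e + f + g + h) with ⟨t, ht | ht⟩
    · have ht' : (e : ℚ) + f + g + h = 2 * t := by exact_mod_cast ht
      refine Or.inl ⟨a * e - b * f - c * g - d * h + (e - t), a * f + b * e + c * h - d * g + (t - g),
        a * g - b * h + c * e + d * f + (t - h), a * h + b * g - c * f + d * e + (t - f), ?_, ?_, ?_, ?_⟩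
      · rw [Quaternion.re_mul, h1, h2, h3, h4, k1, k2, k3, k4]; push_cast; linear_combination (-1 / 2 : ℚ) * ht'
      · rw [Quaternion.imI_mul, h1, h2, h3, h4, k1, k2, k3, k4]; push_cast; linear_combination (1 / 2 : ℚ) * ht'
      · rw [Quaternion.imJ_mul, h1, h2, h3, h4, k1, k2, k3, k4]; push_cast; linear_combination (1 / 2 : ℚ) * ht'
      · rw [Quaternion.imK_mul, h1, h2, h3, h4, k1, k2, k3, k4]; push_cast; linear_combination (1 / 2 : ℚ) * ht'
    · have ht' : (e : ℚ) + f + g + h = 2 * t + 1 := by exact_mod_cast ht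
      refine Or.inr ⟨a * e - b * f - c * g - d * h + (e - t - 1), a * f + b * e + c * h - d * g + (t - g),
        a * g - b * h + c * e + d * f + (t - h), a * h + b * g - c * f + d * e + (t - f), ?_, ?_, ?_, ?_⟩
      · rw [Quaternion.re_mul, h1, h2, h3, h4, k1, k2, k3, k4]; push_cast; linear_combination (-1 / 2 : ℚ) * ht'
      · rw [Quaternion.imI_mul, h1, h2, h3, h4, k1, k2, k3, k4]; push_cast; linear_combination (1 / 2 : ℚ) * ht'
      · rw [Quaternion.imJ_mul, h1, h2, h3, h4, k1, k2, k3, k4]; push_cast; linear_combination (1 / 2 : ℚ) * ht'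
      · rw [Quaternion.imK_mul, h1, h2, h3, h4, k1, k2, k3, k4]; push_cast; linear_combination (1 / 2 : ℚ) * ht'
  · rcases Int.even_or_odd' (a + b + c + d + (e + f + g + h)) with ⟨t, ht | ht⟩
    · have ht' : (a : ℚ) + b + c + d + (e + f + g + h) = 2 * t := by exact_mod_cast ht
      refine Or.inr ⟨a * e - b * f - c * g - d * h + (a + e - t - 1),
        a * f + b * e + c * h - d * g + (t - d - g),
        a * g - b * h + c * e + d * f + (t - b - h), a * h + b * g - c * f + d * e + (t - c - f), ?_, ?_, ?_, ?_⟩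
      · rw [Quaternion.re_mul, h1, h2, h3, h4, k1, k2, k3, k4]; push_cast; linear_combination (-1 / 2 : ℚ) * ht'
      · rw [Quaternion.imI_mul, h1, h2, h3, h4, k1, k2, k3, k4]; push_cast; linear_combination (1 / 2 : ℚ) * ht'
      · rw [Quaternion.imJ_mul, h1, h2, h3, h4, k1, k2, k3, k4]; push_cast; linear_combination (1 / 2 : ℚ) * ht'
      · rw [Quaternion.imK_mul, h1, h2, h3, h4, k1, k2, k3, k4]; push_cast; linear_combination (1 / 2 : ℚ) * ht'
    · have ht' : (a : ℚ) + b + c + d + (e + f + g + h) = 2 * t + 1 := by exact_mod_cast ht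
      refine Or.inl ⟨a * e - b * f - c * g - d * h + (a + e - t - 1),
        a * f + b * e + c * h - d * g + (t + 1 - d - g),
        a * g - b * h + c * e + d * f + (t + 1 - b - h),
        a * h + b * g - c * f + d * e + (t + 1 - c - f), ?_, ?_, ?_, ?_⟩
      · rw [Quaternion.re_mul, h1, h2, h3, h4, k1, k2, k3, k4]; push_cast; linear_combination (-1 / 2 : ℚ) * ht'
      · rw [Quaternion.imI_mul, h1, h2, h3, h4, k1, k2, k3, k4]; push_cast; linear_combination (1 / 2 : ℚ) * ht'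
      · rw [Quaternion.imJ_mul, h1, h2, h3, h4, k1, k2, k3, k4]; push_cast; linear_combination (1 / 2 : ℚ) * ht'
      · rw [Quaternion.imK_mul, h1, h2, h3, h4, k1, k2, k3, k4]; push_cast; linear_combination (1 / 2 : ℚ) * ht'

theorem HUR_norm (x : ℍ[ℚ]) (hx : x ∈ Hz) : ∃ n : ℕ, normSq x = n := by
  have key : ∃ z : ℤ, normSq x = (z : ℚ) := by
    rcases hx with ⟨a, b, c, d, h1, h2, h3, h4⟩ | ⟨a, b, c, d, h1, h2, h3, h4⟩
    · refine ⟨a ^ 2 + b ^ 2 + c ^ 2 + d ^ 2, ?_⟩
      rw [Quaternion.normSq_def', h1, h2, h3, h4]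
      push_cast
      ring
    · refine ⟨a ^ 2 + a + (b ^ 2 + b) + (c ^ 2 + c) + (d ^ 2 + d) + 1, ?_⟩
      rw [Quaternion.normSq_def', h1, h2, h3, h4]
      push_cast
      ring
  obtain ⟨z, hz⟩ := key
  have h0 : (0 : ℚ) ≤ z := by
    rw [← hz]
    exact Quaternion.normSq_nonneg
  have h1 : 0 ≤ z := by exact_mod_cast h0
  refine ⟨z.toNat, ?_⟩
  rw [hz]
  have : ((z.toNat : ℤ) : ℚ) = (z : ℚ) := by rw [Int.toNat_of_nonneg h1]
  rw [← this]
  push_cast
  rfl

theorem HUR_pure (x : ℍ[ℚ]) (hx : x ∈ Hz) (h0 : x.re = 0) : ∃ v : Fin 3 → ℤ, x = pq v := by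
  rcases hx with ⟨a, b, c, d, h1, h2, h3, h4⟩ | ⟨a, b, c, d, h1, h2, h3, h4⟩
  · refine ⟨![b, c, d], ?_⟩
    apply Quaternion.ext
    · rw [h0]; rfl
    · rw [h2]; rfl
    · rw [h3]; rfl
    · rw [h4]; rfl
  · exfalso
    rw [h0] at h1
    have h5 : (2 * a + 1 : ℚ) = 0 := by linarith
    have h6 : (2 * a + 1 : ℤ) = 0 := by exact_mod_cast h5
    omega

theorem HUR : HUR_stmt := by
  refine ⟨?_, ?_, fun x hx y hy => HUR_add x y hx hy, fun x hx => HUR_neg x hx,
    fun x hx y hy => HUR_mul x y hx hy, fun x hx => HUR_norm x hx, fun x hx h => HUR_pure x hx h⟩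
  · exact Or.inl ⟨0, 0, 0, 0, by simp, by simp, by simp, by simp⟩
  · exact Or.inl ⟨1, 0, 0, 0, by simp, by simp, by simp, by simp⟩

end Pool.Agent.helper21.UB
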